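import Mathlib
import Pool.Agent.H964.CW.Stm2

/-!
# A priori fourth moment of the logarithm (task CW-AP1)
-/

set_option autoImplicit false

open MeasureTheory ProbabilityTheory Filter Finset

namespace Pool.Agent.H922.CW

open Pool.Agent.H964.QC Pool.Agent.H964.CW

namespace AP1

/-- the terms of the tail series -/
noncomputable def trm (n : ℕ) : ℝ := ((n : ℝ) + 1) ^ 4 * Real.exp (-((n : ℝ) ^ (1 / 10 : ℝ)))

lemma trm_nonneg (n : ℕ) : 0 ≤ trm n := by
  unfold trm
  positivity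

lemma exp_le : ∃ c : ℝ, 0 < c ∧ ∀ x : ℝ, 0 < x →
    Real.exp (-(x ^ (1 / 10 : ℝ))) ≤ c / x ^ 6 := by
  obtain ⟨m, hm⟩ : ∃ m : ℕ, m = 60 := ⟨60, rfl⟩
  have hf : (0 : ℝ) < (Nat.factorial m : ℝ) := by exact_mod_cast Nat.factorial_pos m
  refine ⟨(Nat.factorial m : ℝ), hf, fun x hx => ?_⟩
  have h1 := Real.pow_div_factorial_le_exp (x ^ (1 / 10 : ℝ)) (by positivity) m
  have h2 : (x ^ (1 / 10 : ℝ)) ^ m = x ^ 6 := by
    rw [← Real.rpow_natCast (x ^ (1 / 10 : ℝ)) m, ← Real.rpow_mul hx.le,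
      ← Real.rpow_natCast x 6, hm]
    congr 1
    norm_num
  rw [h2] at h1
  have hx6 : (0 : ℝ) < x ^ 6 := by positivity
  rw [Real.exp_neg, inv_eq_one_div, div_le_div_iff₀ (Real.exp_pos _) hx6, one_mul]
  rw [div_le_iff₀ hf] at h1
  rw [mul_comm]
  exact h1

lemma trm_summable : Summable trm := by
  obtain ⟨c, hc, hexp⟩ := exp_le
  rw [← summable_nat_add_iff 1]
  have hs : Summable fun n : ℕ => 16 * c * (1 / (((n + 1 : ℕ) : ℝ)) ^ 2) := by
    apply Summable.mul_left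
    exact (summable_nat_add_iff 1).2 (Real.summable_one_div_nat_pow.2 (by norm_num))
  refine Summable.of_nonneg_of_le (fun n => trm_nonneg _) (fun n => ?_) hs
  unfold trm
  have hx : (0 : ℝ) < ((n + 1 : ℕ) : ℝ) := by positivity
  have h1 := hexp _ hx
  have h2 : (((n + 1 : ℕ) : ℝ) + 1) ^ 4 ≤ 16 * ((n + 1 : ℕ) : ℝ) ^ 4 := by
    have h3 : ((n + 1 : ℕ) : ℝ) + 1 ≤ 2 * ((n + 1 : ℕ) : ℝ) := by
      push_cast
      have : (0 : ℝ) ≤ n := Nat.cast_nonneg n
      linarith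
    calc (((n + 1 : ℕ) : ℝ) + 1) ^ 4 ≤ (2 * ((n + 1 : ℕ) : ℝ)) ^ 4 := by gcongr
      _ = 16 * ((n + 1 : ℕ) : ℝ) ^ 4 := by ring
  calc (((n + 1 : ℕ) : ℝ) + 1) ^ 4 * Real.exp (-(((n + 1 : ℕ) : ℝ) ^ (1 / 10 : ℝ)))
      ≤ (16 * ((n + 1 : ℕ) : ℝ) ^ 4) * (c / ((n + 1 : ℕ) : ℝ) ^ 6) := by
        gcongr
    _ = 16 * c * (1 / (((n + 1 : ℕ) : ℝ)) ^ 2) := by
        field_simp

/-- fourth moment from the tail -/
lemma moment {Ω : Type} [MeasurableSpace Ω] (P : Measure Ω) [IsProbabilityMeasure P]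
    (Y : Ω → ℝ) (hY : Measurable Y) (hY0 : ∀ ω, 0 ≤ Y ω) (u0 : ℝ) (hu0 : 1 ≤ u0)
    (htail : ∀ u, u0 ≤ u → P.real {ω | u < Y ω} ≤ Real.exp (-(u ^ (1 / 10 : ℝ)))) :
    Integrable (fun ω => Y ω ^ 4) P ∧ ∫ ω, Y ω ^ 4 ∂P ≤ 16 * u0 ^ 4 + ∑' n, trm n := by
  classical
  set n0 : ℕ := ⌈u0⌉₊ with hn0
  have hn0' : u0 ≤ (n0 : ℝ) := Nat.le_ceil _
  have hn1 : (n0 : ℝ) ≤ 2 * u0 := by
    have := Nat.ceil_lt_add_one (by linarith : (0 : ℝ) ≤ u0)
    linarith
  have hpt : ∀ ω, ENNReal.ofReal (Y ω ^ 4) ≤ ENNReal.ofReal ((n0 : ℝ) ^ 4) +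
      ∑' n : ℕ, (if n0 ≤ n then ENNReal.ofReal (((n : ℝ) + 1) ^ 4) *
        Set.indicator {ω | (n : ℝ) < Y ω} (fun _ => (1 : ENNReal)) ω else 0) := by
    intro ω
    by_cases h : Y ω ≤ n0
    · refine le_add_right (ENNReal.ofReal_le_ofReal ?_)
      exact pow_le_pow_left₀ (hY0 ω) h 4
    · push Not at h
      refine le_add_left ?_
      have h1 : n0 < ⌈Y ω⌉₊ := Nat.lt_ceil.2 h
      have h2 : ((⌈Y ω⌉₊ - 1 : ℕ) : ℝ) < Y ω := by
        rw [← Nat.lt_ceil]
        omega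
      have h3 : Y ω ≤ ((⌈Y ω⌉₊ - 1 : ℕ) : ℝ) + 1 := by
        have h4 : ((⌈Y ω⌉₊ - 1 : ℕ) : ℝ) + 1 = (⌈Y ω⌉₊ : ℝ) := by
          have : ⌈Y ω⌉₊ - 1 + 1 = ⌈Y ω⌉₊ := by omega
          exact_mod_cast this
        rw [h4]
        exact Nat.le_ceil _
      refine le_trans ?_ (ENNReal.le_tsum (⌈Y ω⌉₊ - 1))
      rw [if_pos (by omega), Set.indicator_of_mem (by exact h2), mul_one]
      exact ENNReal.ofReal_le_ofReal (pow_le_pow_left₀ (hY0 ω) h3 4)
  have hmeas : ∀ n : ℕ, MeasurableSet {ω | (n : ℝ) < Y ω} := fun n =>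
    measurableSet_lt measurable_const hY
  have hint : ∫⁻ ω, ENNReal.ofReal (Y ω ^ 4) ∂P ≤ ENNReal.ofReal ((n0 : ℝ) ^ 4 + ∑' n, trm n) := by
    refine (lintegral_mono hpt).trans ?_
    rw [lintegral_add_left measurable_const, lintegral_const, measure_univ, mul_one,
      ENNReal.ofReal_add (by positivity) (tsum_nonneg trm_nonneg)]
    refine add_le_add_right ?_ _
    rw [lintegral_tsum]
    · rw [ENNReal.ofReal_tsum_of_nonneg trm_nonneg trm_summable]
      refine ENNReal.tsum_le_tsum fun n => ?_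
      by_cases hn : n0 ≤ n
      · simp only [if_pos hn]
        rw [lintegral_const_mul _ (measurable_const.indicator (hmeas n)),
          lintegral_indicator_const (hmeas n), one_mul]
        unfold trm
        rw [ENNReal.ofReal_mul (by positivity)]
        refine mul_le_mul_right ?_ _
        have h5 := htail n (hn0'.trans (by exact_mod_cast hn))
        rw [← ofReal_measureReal]
        exact ENNReal.ofReal_le_ofReal h5
      · simp only [if_neg hn, lintegral_zero]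
        exact zero_le
    · intro n
      by_cases hn : n0 ≤ n
      · simp only [if_pos hn]
        exact ((measurable_const.indicator (hmeas n)).const_mul _).aemeasurable
      · simp only [if_neg hn]
        exact aemeasurable_const
  have hm4 : Measurable fun ω => Y ω ^ 4 := hY.pow_const 4
  have hI : Integrable (fun ω => Y ω ^ 4) P := by
    refine ⟨hm4.aestronglyMeasurable, ?_⟩
    rw [hasFiniteIntegral_iff_ofReal (Filter.Eventually.of_forall fun ω => by positivity)]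
    exact hint.trans_lt ENNReal.ofReal_lt_top
  refine ⟨hI, ?_⟩
  rw [integral_eq_lintegral_of_nonneg_ae (Filter.Eventually.of_forall fun ω => by positivity)
    hm4.aestronglyMeasurable]
  have h6 := ENNReal.toReal_mono ENNReal.ofReal_ne_top hint
  rw [ENNReal.toReal_ofReal (add_nonneg (by positivity) (tsum_nonneg trm_nonneg))] at h6
  refine h6.trans ?_
  have h7 : (n0 : ℝ) ^ 4 ≤ 16 * u0 ^ 4 := by
    calc (n0 : ℝ) ^ 4 ≤ (2 * u0) ^ 4 := by gcongr
      _ = 16 * u0 ^ 4 := by ring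
  linarith

/-- pointwise bound of the fourth power of the logarithm of a mean -/
lemma log_pow_le {V : Type} [Fintype V] (w z : V → ℝ) (hw : ∀ y, 0 ≤ w y) (hs : ∑ y, w y = 1)
    (hz : ∀ y, 0 < z y) : Real.log (∑ y, w y * z y) ^ 4 ≤
      ∑ y, w y * (max (-Real.log (z y)) 0) ^ 4 + 24 * ∑ y, w y * z y := by
  have hS : 0 < ∑ y, w y * z y := by
    obtain ⟨y0, -, hy0⟩ : ∃ y ∈ Finset.univ, w y ≠ 0 := by
      apply Finset.exists_ne_zero_of_sum_ne_zero
      rw [hs]
      exact one_ne_zero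
    exact Finset.sum_pos' (fun y _ => mul_nonneg (hw y) (hz y).le)
      ⟨y0, Finset.mem_univ _, mul_pos (lt_of_le_of_ne (hw y0) hy0.symm) (hz y0)⟩
  have hpos : 0 ≤ ∑ y, w y * (max (-Real.log (z y)) 0) ^ 4 :=
    Finset.sum_nonneg fun y _ => mul_nonneg (hw y) (by positivity)
  by_cases h : 0 ≤ Real.log (∑ y, w y * z y)
  · have h1 := Real.pow_div_factorial_le_exp _ h 4
    rw [Real.exp_log hS] at h1
    have h2 : ((Nat.factorial 4 : ℕ) : ℝ) = 24 := by norm_num [Nat.factorial]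
    rw [h2, div_le_iff₀ (by norm_num)] at h1
    linarith
  · push Not at h
    have hJ : ∑ y, w y * Real.log (z y) ≤ Real.log (∑ y, w y * z y) := by
      have := strictConcaveOn_log_Ioi.concaveOn.le_map_sum (t := Finset.univ) (w := w) (p := z)
        (fun y _ => hw y) hs (fun y _ => hz y)
      simpa only [smul_eq_mul] using this
    have h1 : -Real.log (∑ y, w y * z y) ≤ ∑ y, w y * max (-Real.log (z y)) 0 := by
      have h2 : -∑ y, w y * Real.log (z y) = ∑ y, w y * (-Real.log (z y)) := by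
        rw [← Finset.sum_neg_distrib]
        exact Finset.sum_congr rfl fun y _ => by ring
      calc -Real.log (∑ y, w y * z y) ≤ -∑ y, w y * Real.log (z y) := by linarith
        _ = ∑ y, w y * (-Real.log (z y)) := h2
        _ ≤ _ := Finset.sum_le_sum fun y _ => mul_le_mul_of_nonneg_left (le_max_left _ _) (hw y)
    have h3 : (∑ y, w y * max (-Real.log (z y)) 0) ^ 4 ≤
        ∑ y, w y * (max (-Real.log (z y)) 0) ^ 4 :=
      Real.pow_arith_mean_le_arith_mean_pow _ w _ (fun y _ => hw y) hs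
        (fun y _ => le_max_right _ _) 4
    have h4 : Real.log (∑ y, w y * z y) ^ 4 = (-Real.log (∑ y, w y * z y)) ^ 4 := by ring
    rw [h4]
    have h5 : (-Real.log (∑ y, w y * z y)) ^ 4 ≤ (∑ y, w y * max (-Real.log (z y)) 0) ^ 4 :=
      pow_le_pow_left₀ (by linarith) h1 4
    have h6 : 0 ≤ 24 * ∑ y, w y * z y := by positivity
    linarith

lemma num {x y S : ℝ} (hy : 0 ≤ y) (hyx : y ≤ x) (hx : S + 41 ≤ x) (hS : 0 ≤ S) :
    16 * (y ^ 40) ^ 4 + S + 24 ≤ x ^ 200 := by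
  have hx17 : 17 ≤ x := by linarith
  have hx1 : 1 ≤ x := by linarith
  have h1 : (y ^ 40) ^ 4 ≤ x ^ 160 := by
    rw [← pow_mul]
    exact pow_le_pow_left₀ hy hyx 160
  have h2 : x ≤ x ^ 160 := le_self_pow₀ hx1 (by norm_num)
  have h3 : 17 * x ^ 160 ≤ x * x ^ 160 :=
    mul_le_mul_of_nonneg_right hx17 (pow_nonneg (by linarith) 160)
  have h4 : x * x ^ 160 ≤ x ^ 200 := by
    rw [← pow_succ']
    exact pow_le_pow_right₀ hx1 (by norm_num)
  generalize (y ^ 40) ^ 4 = A at h1 ⊢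
  generalize x ^ 160 = B at h1 h2 h3 h4
  generalize x ^ 200 = D at h4 ⊢
  linarith

end AP1

theorem t_AP1 : S_AP1 := by
  intro hLTP hMEAS _ _ C0 θ1 hC0 hθ1
  obtain ⟨C1, hC1, hL⟩ := hLTP.2 C0 θ1 hC0 hθ1
  set S0 : ℝ := ∑' n, AP1.trm n with hS0
  have hS00 : 0 ≤ S0 := tsum_nonneg AP1.trm_nonneg
  refine ⟨C1 + S0 + 41, by linarith, ?_⟩
  intro N0 M _ W hW Ω _ P _ s2 κ η w t T hs2 hs2C hN hw0 hw1 hwt htT hθ
  set C : ℝ := C1 + S0 + 41 with hC
  have hCpos : 0 < C := by linarith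
  have hs2C1 : s2 ≤ 1 / C1 := hs2C.trans (one_div_le_one_div_of_le (by linarith) (by linarith))
  have hs2l : s2 ≤ 1 := by
    refine hs2C.trans ?_
    rw [div_le_one hCpos]
    linarith
  obtain ⟨-, hpos, -, hmZ, -, -, hmc, hL4, hE, -, -⟩ :=
    hMEAS (ZMod M × ZMod M) C0 N0 W Ω P s2 κ η hN.1
  have hgt : ∀ ω, ∀ n v, -1 < cfg η ω n v := fun ω n v => hN.1.gt n v ω
  have hZpos : ∀ ω y, 0 < Zr W (cfg η ω) T y := fun ω y => hpos _ T y (hgt ω)
  have hZm : ∀ y, Measurable fun ω => Zr W (cfg η ω) T y := fun y => (hmZ T y).comp hmc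
  -- the bound for one point
  have hx1 : 1 ≤ C1 / s2 := by
    rw [le_div_iff₀ hs2, one_mul]
    linarith
  have hone : ∀ y, w y ≠ 0 → Integrable (fun ω => (max (-Real.log (Zr W (cfg η ω) T y)) 0) ^ 4) P ∧
      ∫ ω, (max (-Real.log (Zr W (cfg η ω) T y)) 0) ^ 4 ∂P ≤ 16 * ((C1 / s2) ^ 40) ^ 4 + S0 := by
    intro y hy
    have hYm : Measurable fun ω => max (-Real.log (Zr W (cfg η ω) T y)) 0 :=
      ((Real.measurable_log.comp (hZm y)).neg).max measurable_const
    refine AP1.moment P _ hYm (fun ω => le_max_right _ _) ((C1 / s2) ^ 40) (one_le_pow₀ hx1) ?_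
    intro u hu
    have h1 := hL N0 M W hW Ω P s2 κ η y t T u hs2 hs2C1 hN (hwt y hy).1 (hwt y hy).2 htT hθ hu
    have hu0 : 0 < u := lt_of_lt_of_le (by positivity) hu
    refine le_trans (le_of_eq ?_) h1
    congr 1
    ext ω
    rw [Set.mem_ofPred_eq, Set.mem_ofPred_eq, lt_max_iff, ← Real.log_lt_iff_lt_exp (hZpos ω y)]
    constructor
    · rintro (h | h)
      · linarith
      · linarith
    · intro h
      left
      linarith
  -- the dominating function
  have hwI : ∀ y, Integrable (fun ω => w y * (max (-Real.log (Zr W (cfg η ω) T y)) 0) ^ 4) P := by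
    intro y
    by_cases hy : w y = 0
    · simp only [hy, zero_mul]
      exact integrable_zero _ _ _
    · exact (hone y hy).1.const_mul _
  have hwB : ∀ y, ∫ ω, w y * (max (-Real.log (Zr W (cfg η ω) T y)) 0) ^ 4 ∂P ≤
      w y * (16 * ((C1 / s2) ^ 40) ^ 4 + S0) := by
    intro y
    by_cases hy : w y = 0
    · simp [hy]
    · rw [integral_const_mul]
      exact mul_le_mul_of_nonneg_left (hone y hy).2 (hw0 y)
  have hZI : ∀ y, Integrable (fun ω => w y * Zr W (cfg η ω) T y) P := fun y =>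
    ((hL4 T y).integrable (by norm_num)).const_mul _
  have hgI : Integrable (fun ω => ∑ y, w y * (max (-Real.log (Zr W (cfg η ω) T y)) 0) ^ 4 +
      24 * ∑ y, w y * Zr W (cfg η ω) T y) P :=
    (integrable_finsetSum _ fun y _ => hwI y).add
      ((integrable_finsetSum _ fun y _ => hZI y).const_mul _)
  have hgB : ∫ ω, (∑ y, w y * (max (-Real.log (Zr W (cfg η ω) T y)) 0) ^ 4 +
      24 * ∑ y, w y * Zr W (cfg η ω) T y) ∂P ≤ 16 * ((C1 / s2) ^ 40) ^ 4 + S0 + 24 := by
    rw [integral_add (integrable_finsetSum _ fun y _ => hwI y)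
      ((integrable_finsetSum _ fun y _ => hZI y).const_mul _),
      integral_finsetSum _ fun y _ => hwI y, integral_const_mul,
      integral_finsetSum _ fun y _ => hZI y]
    have h1 : ∑ y, ∫ ω, w y * Zr W (cfg η ω) T y ∂P = 1 := by
      rw [← hw1]
      refine Finset.sum_congr rfl fun y _ => ?_
      rw [integral_const_mul, hE T y, mul_one]
    rw [h1, mul_one]
    have h2 := Finset.sum_le_sum fun y (_ : y ∈ Finset.univ) => hwB y
    rw [← Finset.sum_mul, hw1, one_mul] at h2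
    linarith
  have hle : ∀ ω, lgZ W T w (cfg η ω) ^ 4 ≤
      ∑ y, w y * (max (-Real.log (Zr W (cfg η ω) T y)) 0) ^ 4 +
      24 * ∑ y, w y * Zr W (cfg η ω) T y := fun ω =>
    AP1.log_pow_le w _ hw0 hw1 (hZpos ω)
  have hlm : Measurable fun ω => lgZ W T w (cfg η ω) :=
    Real.measurable_log.comp (Finset.measurable_sum _ fun y _ => (hZm y).const_mul _)
  have hI4 : Integrable (fun ω => lgZ W T w (cfg η ω) ^ 4) P := by
    refine hgI.mono' (hlm.pow_const 4).aestronglyMeasurable (Filter.Eventually.of_forall fun ω => ?_)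
    rw [Real.norm_eq_abs, abs_of_nonneg (by positivity)]
    exact hle ω
  constructor
  · rw [← integrable_norm_rpow_iff hlm.aestronglyMeasurable (by norm_num) (by norm_num)]
    refine hI4.congr (Filter.Eventually.of_forall fun ω => ?_)
    simp only
    have h4 : ((4 : ENNReal)).toReal = ((4 : ℕ) : ℝ) := by norm_num
    rw [h4, Real.rpow_natCast, Real.norm_eq_abs, Even.pow_abs (by decide)]
  · refine (integral_mono hI4 hgI hle).trans (hgB.trans ?_)
    have hxC : C ≤ C / s2 := by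
      rw [le_div_iff₀ hs2]
      exact mul_le_of_le_one_right hCpos.le hs2l
    have hx1' : C1 / s2 ≤ C / s2 := div_le_div_of_nonneg_right (by linarith) hs2.le
    exact AP1.num (by positivity) hx1' (by linarith) hS00

end Pool.Agent.H922.CW
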